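import Pool.Agent.Y560.TH.Cst3

/-!
Project TH: linear orders with a group action by monotone and antitone bijections, from the theorem
on local chains.
-/

set_option autoImplicit false

namespace Pool.Agent.Y287.TH

open Set MeasureTheory
open Pool.Agent.H566P (XG Isom)
open Pool.Agent.Y560.TH

variable {Γ : Type}

/-- forget the markers -/
def dn (y : XG Γ) : XG Γ := (y.1, y.2.1, fun i m => y.2.2 (2 * i + 2) m)

/-- add the markers -/
def up (x : XG Γ) : XG Γ :=
  (x.1, x.2.1, fun i m =>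
    if i = 0 then true else if i % 2 = 1 then false else x.2.2 (i / 2 - 1) m)

/-- structures with trivial markers -/
def Mk (y : XG Γ) : Prop := (∀ m, y.2.2 0 m = true) ∧ ∀ i m, y.2.2 (2 * i + 1) m = false

theorem dn_up (x : XG Γ) : dn (up x) = x := by
  refine Prod.ext rfl (Prod.ext rfl ?_)
  funext i m
  show (if 2 * i + 2 = 0 then true else
    if (2 * i + 2) % 2 = 1 then false else x.2.2 ((2 * i + 2) / 2 - 1) m) = x.2.2 i m
  rw [if_neg (by omega), if_neg (by omega)]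
  have : (2 * i + 2) / 2 - 1 = i := by omega
  rw [this]

theorem mk_up (x : XG Γ) : Mk (up x) := by
  refine ⟨fun m => ?_, fun i m => ?_⟩
  · show (if 0 = 0 then true else
      if 0 % 2 = 1 then false else x.2.2 (0 / 2 - 1) m) = true
    rw [if_pos rfl]
  · show (if 2 * i + 1 = 0 then true else
      if (2 * i + 1) % 2 = 1 then false else x.2.2 ((2 * i + 1) / 2 - 1) m) = false
    rw [if_neg (by omega), if_pos (by omega)]

theorem dn_iso {σ : Equiv.Perm ℕ} {x y : XG Γ} (h : Isom σ x y) : Isom σ (dn x) (dn y) :=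
  ⟨h.1, h.2.1, fun i m => h.2.2 (2 * i + 2) m⟩

theorem mk_iso {σ : Equiv.Perm ℕ} {x y : XG Γ} (h : Isom σ x y) (hx : Mk x) : Mk y := by
  refine ⟨fun m => ?_, fun i m => ?_⟩
  · have := h.2.2 0 (σ.symm m)
    rw [σ.apply_symm_apply] at this
    rw [this]; exact hx.1 _
  · have := h.2.2 (2 * i + 1) (σ.symm m)
    rw [σ.apply_symm_apply] at this
    rw [this]; exact hx.2 _ _

theorem iso_dn {σ : Equiv.Perm ℕ} {x y : XG Γ} (hx : Mk x) (hy : Mk y)
    (h : Isom σ (dn x) (dn y)) : Isom σ x y := by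
  refine ⟨h.1, h.2.1, fun i m => ?_⟩
  rcases Nat.even_or_odd' i with ⟨k, rfl | rfl⟩
  · rcases k with _ | k
    · show y.2.2 0 (σ m) = x.2.2 0 m
      rw [hx.1, hy.1]
    · exact h.2.2 k m
  · rw [hx.2, hy.2]

theorem dn_cont : Continuous (dn : XG Γ → XG Γ) := by
  refine continuous_fst.prodMk ((continuous_fst.comp continuous_snd).prodMk ?_)
  refine continuous_pi fun i => continuous_pi fun m => ?_
  exact (continuous_apply m).comp ((continuous_apply (2 * i + 2)).comp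
    (continuous_snd.comp continuous_snd))

theorem dn_meas : Measurable (dn : XG Γ → XG Γ) := by
  refine measurable_fst.prodMk ((measurable_fst.comp measurable_snd).prodMk ?_)
  exact measurable_pi_lambda _ fun i => measurable_pi_lambda _ fun m => c_3 (2 * i + 2) m

theorem mk_meas : MeasurableSet {y : XG Γ | Mk y} := by
  have e : {y : XG Γ | Mk y} = (⋂ m : ℕ, {y : XG Γ | y.2.2 0 m = true}) ∩
      ⋂ i : ℕ, ⋂ m : ℕ, {y : XG Γ | y.2.2 (2 * i + 1) m = false} := by
    ext y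
    simp only [Mk, Set.mem_ofPred_eq, Set.mem_inter_iff, Set.mem_iInter]
  rw [e]
  refine (MeasurableSet.iInter fun m => ?_).inter
    (MeasurableSet.iInter fun i => MeasurableSet.iInter fun m => ?_)
  · exact c_3 0 m (measurableSet_singleton true)
  · exact c_3 (2 * i + 1) m (measurableSet_singleton false)

theorem lc_of [Group Γ] {y : XG Γ} (hy : Mk y) (h : RV (dn y)) : LC y := by
  have hK : ∀ u, K0 y u := fun u => hy.1 u
  have hch : ∀ u v, ch y u v := fun u v => ⟨hK u, hK v, fun i => by rw [hy.2, hy.2]⟩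
  refine ⟨h.irr, h.tr, ?_, h.one, h.mul, fun u _ _ _ => hK u, ?_, fun _ _ _ => hK _,
    fun _ _ _ _ => hch _ _, ?_, fun _ u _ hu => absurd (hK u) hu,
    fun _ v _ hv => absurd (hK v) hv, fun _ _ v hg => absurd (hK v) hg.2.1⟩
  · intro m n k _ _
    by_cases hmn : m = n
    · exact Or.inl hmn
    · exact Or.inr (h.tot m n hmn)
  · intro u v _ _ huv
    exact ⟨fun _ => h.tot u v huv, fun _ => hch u v⟩
  · intro γ u _
    rcases h.mono γ with h1 | h1
    · exact Or.inl fun v w _ _ hvw => h1 v w hvw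
    · exact Or.inr fun v w _ _ hvw => h1 v w hvw

theorem t_REV (h : S_LOC) : S_REV := by
  intro Γ _ _ B hB hBR hBI
  have m1 : MeasurableSet {y : XG Γ | dn y ∈ B ∧ Mk y} := (dn_meas hB).inter mk_meas
  have m2 : ∀ y ∈ {y : XG Γ | dn y ∈ B ∧ Mk y}, LC y := fun y hy => lc_of hy.2 (hBR _ hy.1)
  have m3 : ∀ y ∈ {y : XG Γ | dn y ∈ B ∧ Mk y}, ∀ (z : XG Γ) (σ : Equiv.Perm ℕ),
      Isom σ y z → z ∈ {y : XG Γ | dn y ∈ B ∧ Mk y} :=
    fun y hy z σ hσ => ⟨hBI _ hy.1 _ σ (dn_iso hσ), mk_iso hσ hy.2⟩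
  rcases h Γ {y | dn y ∈ B ∧ Mk y} m1 m2 m3 with ⟨f, hf⟩ | ⟨c, hc, hcB, hci⟩
  · refine Or.inl ⟨fun n => dn (f n), fun x hx => ?_⟩
    obtain ⟨n, σ, hσ⟩ := hf (up x) ⟨by rw [dn_up]; exact hx, mk_up x⟩
    refine ⟨n, σ, ?_⟩
    have h1 := dn_iso hσ
    rwa [dn_up] at h1
  · refine Or.inr ⟨fun a => dn (c a), dn_cont.comp hc, fun a => (hcB a).1, ?_⟩
    rintro a b ⟨σ, hσ⟩
    exact hci a b ⟨σ, iso_dn (hcB a).2 (hcB b).2 hσ⟩

end Pool.Agent.Y287.TH
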