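import Pool.Agent.Y230.TH.Stm

set_option autoImplicit false

/-! # Volumes of the sets `|∑ y_j f_j(x) + g(z)| ≤ p ^ (-e)` (job TH230-Z) -/

namespace Pool.Agent.Y287.TH

open MeasureTheory
open Pool.Agent.W427.SMC Pool.Agent.Y230.PT Pool.Agent.Y230.PS
open scoped ENNReal

attribute [local instance] msZ bsZ

variable {p : ℕ} [Fact p.Prime]

lemma p_pos : (0 : ℝ) < p := by exact_mod_cast (Fact.out : p.Prime).pos

lemma q_pos : (0 : ℝ) < (p : ℝ)⁻¹ := inv_pos.2 p_pos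

lemma q_lt : (p : ℝ)⁻¹ < 1 :=
  inv_lt_one_of_one_lt₀ (by exact_mod_cast (Fact.out : p.Prime).one_lt)

lemma mu_ball (k : ℕ) : mu p {t | ‖t‖ ≤ ((p : ℝ)⁻¹) ^ k} = ((p : ℝ≥0∞)⁻¹) ^ k := by
  rw [← comap_eq, (inc_meas p).comap_apply, ← nu_ball0]
  congr 1
  ext x
  constructor
  · rintro ⟨t, ht, rfl⟩
    rw [Metric.mem_closedBall, dist_zero_right]
    exact ht
  · intro hx
    rw [Metric.mem_closedBall, dist_zero_right] at hx
    have h1 : ‖x‖ ≤ 1 := hx.trans (pow_le_one₀ q_pos.le q_lt.le)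
    exact ⟨⟨x, h1⟩, hx, rfl⟩

lemma mu_ball_shift (k : ℕ) (c : ℤ_[p]) :
    mu p {t | ‖t + c‖ ≤ ((p : ℝ)⁻¹) ^ k} = ((p : ℝ≥0∞)⁻¹) ^ k := by
  rw [← mu_ball]
  exact measure_preimage_add_right (mu p) c {t | ‖t‖ ≤ ((p : ℝ)⁻¹) ^ k}

/-- the volume of a fibre -/
noncomputable def hh (p : ℕ) (e : ℕ) (r w : ℝ) : ℝ≥0∞ :=
  open Classical in
  if r ≤ ((p : ℝ)⁻¹) ^ e then (if w ≤ ((p : ℝ)⁻¹) ^ e then 1 else 0)
  else (if w ≤ r then ENNReal.ofReal (((p : ℝ)⁻¹) ^ e / r) else 0)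

variable {ι σ τ : Type} [Fintype ι] [Fintype σ] [Fintype τ]

lemma sum_le (a : ι → ℚ_[p]) (y : ι → ℤ_[p]) : ‖∑ j, inc p (y j) * a j‖ ≤ ‖a‖ := by
  refine IsUltrametricDist.norm_sum_le_of_forall_le_of_nonneg (norm_nonneg _) fun j _ => ?_
  rw [norm_mul]
  have h1 : ‖inc p (y j)‖ ≤ 1 := (y j).2
  have h2 := norm_le_pi_norm a j
  calc ‖inc p (y j)‖ * ‖a j‖ ≤ 1 * ‖a‖ := by gcongr
    _ = ‖a‖ := one_mul _

lemma w_le (a : ι → ℚ_[p]) (y : ι → ℤ_[p]) (w : ℚ_[p]) :
    ‖w‖ ≤ max ‖∑ j, inc p (y j) * a j + w‖ ‖a‖ := by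
  have e : w = (∑ j, inc p (y j) * a j + w) + -(∑ j, inc p (y j) * a j) := by ring
  calc ‖w‖ = ‖(∑ j, inc p (y j) * a j + w) + -(∑ j, inc p (y j) * a j)‖ := by rw [← e]
    _ ≤ max ‖∑ j, inc p (y j) * a j + w‖ ‖-(∑ j, inc p (y j) * a j)‖ :=
        IsUltrametricDist.norm_add_le_max _ _
    _ ≤ _ := by
        rw [norm_neg]
        exact max_le_max le_rfl (sum_le a y)

theorem fibre [DecidableEq ι] [Nonempty ι] (a : ι → ℚ_[p]) (ha : Val p ‖a‖) (w : ℚ_[p]) (e : ℕ) :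
    (Measure.pi fun _ : ι => mu p) {y | ‖∑ j, inc p (y j) * a j + w‖ ≤ ((p : ℝ)⁻¹) ^ e} =
      hh p e ‖a‖ ‖w‖ := by
  have hq := q_pos (p := p)
  have hqe : 0 < ((p : ℝ)⁻¹) ^ e := pow_pos hq e
  unfold hh
  by_cases h1 : ‖a‖ ≤ ((p : ℝ)⁻¹) ^ e
  · rw [if_pos h1]
    by_cases h2 : ‖w‖ ≤ ((p : ℝ)⁻¹) ^ e
    · rw [if_pos h2]
      have hU : ({y | ‖∑ j, inc p (y j) * a j + w‖ ≤ ((p : ℝ)⁻¹) ^ e} : Set (ι → ℤ_[p])) =
          Set.univ := by
        ext y
        simp only [Set.mem_univ, iff_true]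
        exact (IsUltrametricDist.norm_add_le_max _ _).trans (max_le ((sum_le a y).trans h1) h2)
      rw [hU, measure_univ]
    · rw [if_neg h2]
      have hU : ({y | ‖∑ j, inc p (y j) * a j + w‖ ≤ ((p : ℝ)⁻¹) ^ e} : Set (ι → ℤ_[p])) = ∅ := by
        rw [Set.eq_empty_iff_forall_notMem]
        intro y hy
        exact h2 ((w_le a y w).trans (max_le hy h1))
      rw [hU, measure_empty]
  · rw [if_neg h1]
    rw [not_le] at h1
    by_cases h2 : ‖w‖ ≤ ‖a‖
    swap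
    · rw [if_neg h2]
      have hU : ({y | ‖∑ j, inc p (y j) * a j + w‖ ≤ ((p : ℝ)⁻¹) ^ e} : Set (ι → ℤ_[p])) = ∅ := by
        rw [Set.eq_empty_iff_forall_notMem]
        intro y hy
        exact h2 ((w_le a y w).trans (max_le (le_trans hy h1.le) le_rfl))
      rw [hU, measure_empty]
    · rw [if_pos h2]
      obtain ⟨i, hi⟩ : ∃ i : ℕ, ‖a‖ = ((p : ℝ)⁻¹) ^ i := by
        rcases ha with h0 | h0
        · rw [h0] at h1
          exact absurd hqe (not_lt.2 h1.le)
        · exact h0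
      have hie : i < e := by
        rw [hi] at h1
        exact (pow_lt_pow_iff_right_of_lt_one₀ hq q_lt).1 h1
      obtain ⟨j0, hj0⟩ := norm_attained a
      have ha0 : a j0 ≠ 0 := by
        intro h
        rw [h, norm_zero] at hj0
        rw [hj0] at h1
        exact absurd hqe (not_lt.2 h1.le)
      have hmax : ∀ j, ‖a j‖ ≤ ‖a j0‖ := fun j => hj0 ▸ norm_le_pi_norm a j
      have hu' : ∀ z : ℚ_[p], ‖z‖ ≤ ‖a j0‖ → ∃ u : ℤ_[p], z = a j0 * inc p u := by
        intro z hz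
        have h3 : ‖z / a j0‖ ≤ 1 := by
          rw [norm_div]
          exact div_le_one_of_le₀ hz (norm_nonneg _)
        refine ⟨⟨z / a j0, h3⟩, ?_⟩
        change z = a j0 * (z / a j0)
        rw [mul_div_cancel₀ _ ha0]
      have hu : ∀ j, ∃ u : ℤ_[p], a j = a j0 * inc p u := fun j => hu' _ (hmax j)
      choose u hu using hu
      obtain ⟨v, hv⟩ := hu' w (hj0 ▸ h2)
      have hu0 : u j0 = 1 := by
        have h3 : inc p (u j0) = 1 := by
          have : a j0 * inc p (u j0) = a j0 * 1 := by rw [← hu j0, mul_one]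
          exact mul_left_cancel₀ ha0 this
        have h4 : ((u j0 : ℤ_[p]) : ℚ_[p]) = ((1 : ℤ_[p]) : ℚ_[p]) := by
          rw [PadicInt.coe_one]
          exact h3
        exact Subtype.ext h4
      have hcond : ∀ y : ι → ℤ_[p], ‖∑ j, inc p (y j) * a j + w‖ ≤ ((p : ℝ)⁻¹) ^ e ↔
          ‖∑ j, y j * u j + v‖ ≤ ((p : ℝ)⁻¹) ^ (e - i) := by
        intro y
        have h3 : ∑ j, inc p (y j) * a j + w = a j0 * inc p (∑ j, y j * u j + v) := by
          have h4 : inc p (∑ j, y j * u j + v) = ∑ j, inc p (y j) * inc p (u j) + inc p v := by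
            simp [inc]
          rw [h4, mul_add, ← hv, Finset.mul_sum]
          congr 1
          refine Finset.sum_congr rfl fun j _ => ?_
          rw [hu j]
          ring
        have h5 : ((p : ℝ)⁻¹) ^ e = ((p : ℝ)⁻¹) ^ i * ((p : ℝ)⁻¹) ^ (e - i) := by
          rw [← pow_add, Nat.add_sub_cancel' hie.le]
        rw [h3, norm_mul, ← hj0, hi, h5]
        exact mul_le_mul_iff_right₀ (pow_pos hq i)
      have hset : ({y | ‖∑ j, inc p (y j) * a j + w‖ ≤ ((p : ℝ)⁻¹) ^ e} : Set (ι → ℤ_[p])) =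
          {y | ‖∑ j, y j * u j + v‖ ≤ ((p : ℝ)⁻¹) ^ (e - i)} := by
        ext y
        exact hcond y
      have hcont : Continuous (fun y : ι → ℤ_[p] => ∑ j, y j * u j + v) := by fun_prop
      have hms : MeasurableSet {y : ι → ℤ_[p] | ‖∑ j, y j * u j + v‖ ≤ ((p : ℝ)⁻¹) ^ (e - i)} :=
        measurableSet_le hcont.norm.measurable measurable_const
      rw [hset, ← lintegral_indicator_one hms]
      rw [lintegral_avg p _ (measurable_one.indicator hms) j0]
      have h6 : ∀ y : ι → ℤ_[p], ∫⁻ t, ({y : ι → ℤ_[p] | ‖∑ j, y j * u j + v‖ ≤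
          ((p : ℝ)⁻¹) ^ (e - i)}.indicator 1 (Function.update y j0 t) : ℝ≥0∞) ∂(mu p) =
          ((p : ℝ≥0∞)⁻¹) ^ (e - i) := by
        intro y
        have h7 : ∀ t, ∑ j, Function.update y j0 t j * u j =
            t + ∑ j ∈ Finset.univ.erase j0, y j * u j := by
          intro t
          rw [← Finset.add_sum_erase Finset.univ _ (Finset.mem_univ j0), Function.update_self, hu0,
            mul_one]
          congr 1
          refine Finset.sum_congr rfl fun j hj => ?_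
          rw [Function.update_of_ne (Finset.ne_of_mem_erase hj)]
        rw [← mu_ball_shift (e - i) (∑ j ∈ Finset.univ.erase j0, y j * u j + v)]
        have hms2 : MeasurableSet {t : ℤ_[p] |
            ‖t + (∑ j ∈ Finset.univ.erase j0, y j * u j + v)‖ ≤ ((p : ℝ)⁻¹) ^ (e - i)} :=
          measurableSet_le (continuous_id.add continuous_const).norm.measurable measurable_const
        rw [← lintegral_indicator_one hms2]
        refine lintegral_congr fun t => ?_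
        by_cases h8 : ‖t + (∑ j ∈ Finset.univ.erase j0, y j * u j + v)‖ ≤ ((p : ℝ)⁻¹) ^ (e - i)
        · rw [Set.indicator_of_mem, Set.indicator_of_mem]
          · rfl
          · exact h8
          · change ‖∑ j, Function.update y j0 t j * u j + v‖ ≤ ((p : ℝ)⁻¹) ^ (e - i)
            rw [h7, add_assoc]
            exact h8
        · rw [Set.indicator_of_notMem, Set.indicator_of_notMem]
          · exact h8
          · intro h9
            apply h8
            have h10 : ‖∑ j, Function.update y j0 t j * u j + v‖ ≤ ((p : ℝ)⁻¹) ^ (e - i) := h9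
            rwa [h7, add_assoc] at h10
      simp only [h6]
      rw [lintegral_const, measure_univ, mul_one, hi]
      have h11 : ((p : ℝ)⁻¹) ^ e / ((p : ℝ)⁻¹) ^ i = ((p : ℝ)⁻¹) ^ (e - i) := by
        rw [div_eq_iff (pow_pos hq i).ne', ← pow_add, Nat.sub_add_cancel hie.le]
      rw [h11, ENNReal.ofReal_pow hq.le, ENNReal.ofReal_inv_of_pos p_pos, ENNReal.ofReal_natCast]

/-! ### The integrals -/

lemma lint_ite {Ω : Type} [MeasurableSpace Ω] (ν : Measure Ω) (ρ : Ω → ℝ) (hρ : Measurable ρ)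
    (c : ℝ) (b : ℝ≥0∞) :
    ∫⁻ z, (open Classical in if ρ z ≤ c then b else 0) ∂ν = b * ν {z | ρ z ≤ c} := by
  have hms : MeasurableSet {z | ρ z ≤ c} := measurableSet_le hρ measurable_const
  rw [← lintegral_indicator_const hms]
  refine lintegral_congr fun z => ?_
  by_cases h : ρ z ≤ c
  · rw [if_pos h, Set.indicator_of_mem (by exact h)]
  · rw [if_neg h, Set.indicator_of_notMem (by exact h)]

/-- the integral over `z` -/
noncomputable def II (p : ℕ) (J : ℝ → ℝ≥0∞) (e : ℕ) (r : ℝ) : ℝ≥0∞ :=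
  open Classical in
  if r ≤ ((p : ℝ)⁻¹) ^ e then J (((p : ℝ)⁻¹) ^ e) else ENNReal.ofReal (((p : ℝ)⁻¹) ^ e / r) * J r

lemma lint_hh {Ω : Type} [MeasurableSpace Ω] (ν : Measure Ω) (ρ : Ω → ℝ) (hρ : Measurable ρ)
    (e : ℕ) (r : ℝ) : ∫⁻ z, hh p e r (ρ z) ∂ν = II p (fun c => ν {z | ρ z ≤ c}) e r := by
  unfold hh II
  by_cases h : r ≤ ((p : ℝ)⁻¹) ^ e
  · simp only [if_pos h]
    rw [lint_ite ν ρ hρ, one_mul]
  · simp only [if_neg h]
    rw [lint_ite ν ρ hρ]

lemma hh_meas (e : ℕ) : Measurable (fun q : ℝ × ℝ => hh p e q.1 q.2) := by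
  unfold hh
  refine Measurable.ite (measurableSet_le measurable_fst measurable_const) ?_ ?_
  · exact Measurable.ite (measurableSet_le measurable_snd measurable_const) measurable_const
      measurable_const
  · refine Measurable.ite (measurableSet_le measurable_snd measurable_fst) ?_ measurable_const
    exact ENNReal.measurable_ofReal.comp (measurable_const.div measurable_fst)

lemma pw (k : ℕ) {r : ℝ} : (p : ℝ≥0∞) ^ k * ENNReal.ofReal (((p : ℝ)⁻¹) ^ k / r) =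
    ENNReal.ofReal (1 / r) := by
  rw [← ENNReal.ofReal_natCast p, ← ENNReal.ofReal_pow p_pos.le,
    ← ENNReal.ofReal_mul (pow_nonneg p_pos.le k)]
  congr 1
  rw [inv_pow, ← mul_div_assoc, mul_inv_cancel₀ (pow_pos p_pos k).ne']

/-- the identity for the fibres -/
lemma step (J : ℝ → ℝ≥0∞) (e : ℕ) {r : ℝ} (hr : Val p r) :
    (p : ℝ≥0∞) ^ (e + 1) * II p J (e + 1) r +
      (open Classical in if r ≤ ((p : ℝ)⁻¹) ^ (e + 1) then
        (p : ℝ≥0∞) ^ e * J (((p : ℝ)⁻¹) ^ e) else 0) =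
    (p : ℝ≥0∞) ^ e * II p J e r +
      (open Classical in if r ≤ ((p : ℝ)⁻¹) ^ (e + 1) then
        (p : ℝ≥0∞) ^ (e + 1) * J (((p : ℝ)⁻¹) ^ (e + 1)) else 0) := by
  have hq := q_pos (p := p)
  have hlt : ((p : ℝ)⁻¹) ^ (e + 1) < ((p : ℝ)⁻¹) ^ e :=
    pow_lt_pow_right_of_lt_one₀ hq q_lt (Nat.lt_succ_self e)
  unfold II
  by_cases h1 : r ≤ ((p : ℝ)⁻¹) ^ (e + 1)
  · have h2 : r ≤ ((p : ℝ)⁻¹) ^ e := h1.trans hlt.le
    simp only [if_pos h1, if_pos h2]
    rw [add_comm]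
  · simp only [if_neg h1]
    rw [add_zero, add_zero, ← mul_assoc, pw]
    by_cases h2 : r ≤ ((p : ℝ)⁻¹) ^ e
    · rw [if_pos h2]
      have h3 : r = ((p : ℝ)⁻¹) ^ e := by
        rcases hr with h0 | ⟨k, hk⟩
        · rw [h0] at h1
          exact absurd (pow_pos hq (e + 1)).le h1
        · rw [hk] at h1 h2 ⊢
          have h4 : e ≤ k := (pow_le_pow_iff_right_of_lt_one₀ hq q_lt).1 h2
          have h5 : ¬ (e + 1 ≤ k) := fun h => h1 ((pow_le_pow_iff_right_of_lt_one₀ hq q_lt).2 h)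
          have h6 : k = e := by omega
          rw [h6]
      rw [h3]
      congr 1
      rw [one_div, inv_pow, inv_inv, ENNReal.ofReal_pow p_pos.le, ENNReal.ofReal_natCast]
    · rw [if_neg h2, ← mul_assoc, pw]

/-- the integrated identity -/
lemma total {Ω Ω' : Type} [MeasurableSpace Ω] [MeasurableSpace Ω'] (ν : Measure Ω)
    [IsProbabilityMeasure ν] (μ : Measure Ω') [IsProbabilityMeasure μ]
    (ρ : Ω → ℝ) (hρ : Measurable ρ) (θ : Ω' → ℝ) (hθ : Measurable θ) (hv : ∀ x, Val p (θ x))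
    (e : ℕ) :
    (p : ℝ≥0∞) ^ (e + 1) * ∫⁻ x, ∫⁻ z, hh p (e + 1) (θ x) (ρ z) ∂ν ∂μ +
      (p : ℝ≥0∞) ^ e * ν {z | ρ z ≤ ((p : ℝ)⁻¹) ^ e} * μ {x | θ x ≤ ((p : ℝ)⁻¹) ^ (e + 1)} =
    (p : ℝ≥0∞) ^ e * ∫⁻ x, ∫⁻ z, hh p e (θ x) (ρ z) ∂ν ∂μ +
      (p : ℝ≥0∞) ^ (e + 1) * ν {z | ρ z ≤ ((p : ℝ)⁻¹) ^ (e + 1)} *
        μ {x | θ x ≤ ((p : ℝ)⁻¹) ^ (e + 1)} := by
  have hm : ∀ k, Measurable (fun x => ∫⁻ z, hh p k (θ x) (ρ z) ∂ν) := by
    intro k
    have h1 : Measurable (fun q : Ω' × Ω => hh p k (θ q.1) (ρ q.2)) :=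
      (hh_meas k).comp ((hθ.comp measurable_fst).prodMk (hρ.comp measurable_snd))
    exact h1.lintegral_prod_right'
  rw [← lint_ite μ θ hθ, ← lint_ite μ θ hθ, ← lintegral_const_mul _ (hm (e + 1)),
    ← lintegral_const_mul _ (hm e), ← lintegral_add_left ((hm (e + 1)).const_mul _),
    ← lintegral_add_left ((hm e).const_mul _)]
  refine lintegral_congr fun x => ?_
  rw [lint_hh ν ρ hρ, lint_hh ν ρ hρ]
  exact step (fun c => ν {z | ρ z ≤ c}) e (hv x)

/-- the values of a family -/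
noncomputable def va {σ κ : Type} (f : κ → MvPolynomial σ ℚ_[p]) (x : σ → ℤ_[p]) : κ → ℚ_[p] :=
  fun j => MvPolynomial.eval (fun i => inc p (x i)) (f j)

lemma va_cont {σ κ : Type} (f : κ → MvPolynomial σ ℚ_[p]) (j : κ) :
    Continuous (fun x => va f x j) :=
  (MvPolynomial.continuous_eval _).comp (continuous_pi fun i =>
    (inc_emb p).continuous.comp (continuous_apply i))

lemma sz_F (f : ι → MvPolynomial σ ℚ_[p]) (g : MvPolynomial τ ℚ_[p])
    (v : (ι ⊕ σ) ⊕ τ → ℤ_[p]) :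
    sz (fun _ : Fin 1 => MvPolynomial.rename Sum.inl (univK f) + MvPolynomial.rename Sum.inr g) v =
      ‖∑ j, inc p (v (Sum.inl (Sum.inl j))) * va f (fun i => v (Sum.inl (Sum.inr i))) j +
        MvPolynomial.eval (fun i => inc p (v (Sum.inr i))) g‖ := by
  unfold sz
  rw [pi_norm_const, map_add, MvPolynomial.eval_rename, MvPolynomial.eval_rename]
  congr 2
  unfold univK
  rw [map_sum]
  refine Finset.sum_congr rfl fun j _ => ?_
  rw [map_mul, MvPolynomial.eval_X, MvPolynomial.eval_rename]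
  rfl

/-- the volume as an iterated integral -/
lemma vol_eq [DecidableEq ι] [Nonempty ι] (f : ι → MvPolynomial σ ℚ_[p])
    (g : MvPolynomial τ ℚ_[p]) (hf : ∀ x, Val p (sz f x)) (e : ℕ) :
    (Measure.pi fun _ : (ι ⊕ σ) ⊕ τ => mu p) {v | sz (fun _ : Fin 1 =>
      MvPolynomial.rename Sum.inl (univK f) + MvPolynomial.rename Sum.inr g) v ≤
        ((p : ℝ)⁻¹) ^ e} =
    ∫⁻ x, ∫⁻ z, hh p e (sz f x) (sz (fun _ : Fin 1 => g) z) ∂(Measure.pi fun _ : τ => mu p)
      ∂(Measure.pi fun _ : σ => mu p) := by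
  have hgc : Continuous (fun z : τ → ℤ_[p] => MvPolynomial.eval (fun i => inc p (z i)) g) :=
    va_cont (fun _ : Fin 1 => g) 0
  -- the first splitting
  have hmp1 := measurePreserving_sumPiEquivProdPi (X := fun _ : (ι ⊕ σ) ⊕ τ => ℤ_[p])
    (fun _ : (ι ⊕ σ) ⊕ τ => mu p)
  have hmp2 := measurePreserving_sumPiEquivProdPi (X := fun _ : ι ⊕ σ => ℤ_[p])
    (fun _ : ι ⊕ σ => mu p)
  set S : Set ((ι ⊕ σ → ℤ_[p]) × (τ → ℤ_[p])) := {q | ‖∑ j, inc p (q.1 (Sum.inl j)) *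
    va f (fun i => q.1 (Sum.inr i)) j + MvPolynomial.eval (fun i => inc p (q.2 i)) g‖ ≤
      ((p : ℝ)⁻¹) ^ e} with hS
  have hSm : MeasurableSet S := by
    refine measurableSet_le (Continuous.norm ?_).measurable measurable_const
    refine Continuous.add (continuous_finsetSum _ fun j _ => ?_) (hgc.comp continuous_snd)
    refine Continuous.mul ((inc_emb p).continuous.comp
      ((continuous_apply (Sum.inl j)).comp continuous_fst)) ?_
    have h0 : Continuous (fun q : (ι ⊕ σ → ℤ_[p]) × (τ → ℤ_[p]) => (fun i => q.1 (Sum.inr i) :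
        σ → ℤ_[p])) :=
      continuous_pi fun i => (continuous_apply (Sum.inr i)).comp continuous_fst
    exact (va_cont f j).comp h0
  have h1 : (Measure.pi fun _ : (ι ⊕ σ) ⊕ τ => mu p) {v | sz (fun _ : Fin 1 =>
      MvPolynomial.rename Sum.inl (univK f) + MvPolynomial.rename Sum.inr g) v ≤
        ((p : ℝ)⁻¹) ^ e} =
      ((Measure.pi fun _ : ι ⊕ σ => mu p).prod (Measure.pi fun _ : τ => mu p)) S := by
    rw [← hmp1.measure_preimage hSm.nullMeasurableSet]
    congr 1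
    ext v
    rw [Set.mem_preimage, Set.mem_ofPred_eq, sz_F]
    rfl
  rw [h1, Measure.prod_apply_symm hSm]
  -- the second splitting
  have h2 : ∀ z : τ → ℤ_[p], (Measure.pi fun _ : ι ⊕ σ => mu p) ((fun x => (x, z)) ⁻¹' S) =
      ∫⁻ x, hh p e (sz f x) (sz (fun _ : Fin 1 => g) z) ∂(Measure.pi fun _ : σ => mu p) := by
    intro z
    set w := MvPolynomial.eval (fun i => inc p (z i)) g with hw
    set T : Set ((ι → ℤ_[p]) × (σ → ℤ_[p])) := {q | ‖∑ j, inc p (q.1 j) * va f q.2 j + w‖ ≤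
      ((p : ℝ)⁻¹) ^ e} with hT
    have hTm : MeasurableSet T := by
      refine measurableSet_le (Continuous.norm ?_).measurable measurable_const
      refine Continuous.add (continuous_finsetSum _ fun j _ => ?_) continuous_const
      exact Continuous.mul ((inc_emb p).continuous.comp
        ((continuous_apply j).comp continuous_fst)) ((va_cont f j).comp continuous_snd)
    have h3 : (Measure.pi fun _ : ι ⊕ σ => mu p) ((fun x => (x, z)) ⁻¹' S) =
        ((Measure.pi fun _ : ι => mu p).prod (Measure.pi fun _ : σ => mu p)) T := by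
      rw [← hmp2.measure_preimage hTm.nullMeasurableSet]
      congr 1
    rw [h3, Measure.prod_apply_symm hTm]
    refine lintegral_congr fun x => ?_
    have h4 : sz (fun _ : Fin 1 => g) z = ‖w‖ := by
      unfold sz
      rw [pi_norm_const]
    rw [h4]
    exact fibre (va f x) (hf x) w e
  simp only [h2]
  refine lintegral_lintegral_swap ?_
  have h5 : Measurable (fun q : (τ → ℤ_[p]) × (σ → ℤ_[p]) =>
      hh p e (sz f q.2) (sz (fun _ : Fin 1 => g) q.1)) :=
    (hh_meas e).comp (((sz_meas f).comp measurable_snd).prodMk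
      ((sz_meas (fun _ : Fin 1 => g)).comp measurable_fst))
  exact h5.aemeasurable

theorem tZ : Pool.Agent.Y230.TH.StZ := by
  intro p _ σ τ ι _ _ _ _ _ f g hf hg e
  have h1 := total (p := p) (Measure.pi fun _ : τ => mu p) (Measure.pi fun _ : σ => mu p)
    (sz fun _ : Fin 1 => g) (sz_meas _) (sz f) (sz_meas f) hf e
  rw [← vol_eq f g hf, ← vol_eq f g hf] at h1
  have h2 := congrArg ENNReal.toReal h1
  have hP : ∀ k : ℕ, (p : ℝ≥0∞) ^ k ≠ ⊤ := fun k => ENNReal.pow_ne_top (ENNReal.natCast_ne_top p)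
  rw [ENNReal.toReal_add, ENNReal.toReal_add, ENNReal.toReal_mul, ENNReal.toReal_mul,
    ENNReal.toReal_mul, ENNReal.toReal_mul, ENNReal.toReal_mul, ENNReal.toReal_mul,
    ENNReal.toReal_pow, ENNReal.toReal_pow, ENNReal.toReal_natCast] at h2
  · unfold Vo
    linear_combination h2
  · exact ENNReal.mul_ne_top (hP _) (measure_ne_top _ _)
  · exact ENNReal.mul_ne_top (ENNReal.mul_ne_top (hP _) (measure_ne_top _ _)) (measure_ne_top _ _)
  · exact ENNReal.mul_ne_top (hP _) (measure_ne_top _ _)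
  · exact ENNReal.mul_ne_top (ENNReal.mul_ne_top (hP _) (measure_ne_top _ _)) (measure_ne_top _ _)

end Pool.Agent.Y287.TH
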